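import Pool.Agent.Helper88.RC.Large
import Pool.Agent.Helper98.DL.Main
import Pool.Agent.Helper63.CR.Wrap

/-!
# MP_47cd0b: rank four, all lattices with many points, from the dense case alone

`Dense a0 L`: sets of atoms of rank four whose largest plane has between `a ^ 40` and `2 * a ^ 40`
points, `a ≥ a0`, and whose lines have at most `a ^ 31` points, satisfy `Crit4`.
-/

set_option autoImplicit false
set_option linter.unusedSectionVars false

namespace Pool.Agent.Helper88.RC

open Finset Pool.Agent.Helper28.BPack Pool.Agent.Helper61.Motz Pool.Agent.Helper38.Thick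
  Pool.Agent.Helper63.CR Pool.Agent.Helper8.ManyLines

open Classical in
/-- The dense case. -/
def Dense (a0 : ℕ) (L : Type) [Lattice L] [BoundedOrder L] [Finite L] : Prop :=
  ∀ (A : Finset L), (∀ a ∈ A, IsAtom a) → rk (A.sup id) = 4 → ∀ Q : L, rk Q = 3 →
    (∀ H, rk H = 3 → (A.filter (· ≤ H)).card ≤ (A.filter (· ≤ Q)).card) →
    ∀ a : ℕ, a0 ≤ a → a ^ 40 ≤ (A.filter (· ≤ Q)).card →
    (A.filter (· ≤ Q)).card ≤ 2 * a ^ 40 →
    (∀ g, rk g = 2 → (A.filter (· ≤ g)).card ≤ a ^ 31) → Crit4 A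

variable {L : Type} [Lattice L] [BoundedOrder L] [Finite L] [IsUpperModularLattice L]

theorem crit4_of_dense {a0 : ℕ} (h112 : 112 ≤ a0) (D : Dense a0 L) {A : Finset L}
    (hA : ∀ a ∈ A, IsAtom a) (hr : rk (A.sup id) = 4) (hn : 3 * a0 ^ 60 ≤ A.card) : Crit4 A := by
  classical
  refine crit4_large (a0 := a0) (c := 14) h112 (by norm_num) ?_ ?_ hA hr hn
  · intro A hA hr Q hQ hmax a h1 h2 h3 h4
    refine D A hA hr Q hQ ?_ a h1 ?_ ?_ ?_
    · intro H hH
      convert hmax H hH
    · convert h2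
    · convert h3
    · intro g hg
      convert h4 g hg
  · intro A hA hr u hu h
    refine Pool.Agent.Helper98.DL.crit4_dominating hA hr hu ?_
    convert h

/-- The packing (general form). -/
theorem hasPack_of_dense {L : Type} [Lattice L] [BoundedOrder L] [Fintype L]
    [IsUpperModularLattice L] {a0 : ℕ} (h112 : 112 ≤ a0) (D : Dense a0 L)
    (hat : ∀ x : L, ∃ s : Finset L, (∀ a ∈ s, IsAtom a) ∧ s.sup id = x)
    (hr : rk (⊤ : L) = 4) (hn : 3 * a0 ^ 60 ≤ {a : L | IsAtom a}.ncard) : HasPack (⊥ : L) := by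
  classical
  have hA : ∀ a, a ∈ (univ : Finset L).filter IsAtom ↔ IsAtom a := fun a => by simp
  have hsup : rk (((univ : Finset L).filter IsAtom).sup id) = 4 := by
    obtain ⟨s, hs, hst⟩ := hat ⊤
    have h1 : ((univ : Finset L).filter IsAtom).sup id = ⊤ := by
      apply top_unique
      rw [← hst]
      exact Finset.sup_mono (fun a ha => (hA a).mpr (hs a ha))
    rw [h1, hr]
  rw [ncard_atoms' hA] at hn
  exact hasPack_of_red hat hr hA
    (crit4_of_dense h112 D (fun a ha => (hA a).mp ha) hsup hn)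

/-- **The packing from the dense case.** -/
theorem packing_of_dense {L : Type} [Lattice L] [BoundedOrder L] [Fintype L]
    [IsUpperModularLattice L] {a0 : ℕ} (h112 : 112 ≤ a0) (D : Dense a0 L)
    (hat : ∀ x : L, ∃ s : Finset L, (∀ a ∈ s, IsAtom a) ∧ s.sup id = x)
    (hr : Order.height (⊤ : L) = 4)
    (hn : 3 * a0 ^ 60 ≤ {a : L | IsAtom a}.ncard) :
    ∃ (t : ℕ) (n : Fin t → ℕ) (φ : ∀ i : Fin t, Set (Fin (n i)) → L),
      (∀ i, Function.Injective (φ i)) ∧
      (∀ i (a b : Set (Fin (n i))), a ⋖ b → φ i a ⋖ φ i b) ∧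
      (∀ i, Order.height (⊤ : L) ≤ Order.height (φ i ⊥) + Order.height (φ i ⊤)) ∧
      (∀ x : L, ∃! p : (Σ i : Fin t, Set (Fin (n i))), φ p.1 p.2 = x) := by
  classical
  refine packing_of_crit4 hat hr ?_
  intro A hA hrA
  rw [ncard_atoms' hA] at hn
  exact crit4_of_dense h112 D (fun a ha => (hA a).mp ha) hrA hn

end Pool.Agent.Helper88.RC
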