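import Pool.Agent.Helper63.CR.Planes

/-!
# MP_47cd0b: rank four, all lattices with many points (final deduction)

If every set of atoms of rank four whose largest plane has between `a ^ 40` and `2 * a ^ 40` points
and whose lines have at most `a ^ 31` points (`a ≥ a0`) satisfies `Crit4`, and every set with a line
of `s` points, `c n ≤ s ^ 2`, does, then every set of rank four with at least `3 * a0 ^ 60` atoms
does.
-/

set_option autoImplicit false
set_option linter.unusedSectionVars false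

namespace Pool.Agent.Helper88.RC

open Finset Pool.Agent.Helper28.BPack Pool.Agent.Helper61.Motz Pool.Agent.Helper38.Thick

theorem pow_succ_le_two {a : ℕ} (ha : 80 ≤ a) : (a + 1) ^ 40 ≤ 2 * a ^ 40 := by
  have h0 : (0 : ℝ) < (a : ℝ) + 1 := by positivity
  have ha' : (80 : ℝ) ≤ a := by exact_mod_cast ha
  have h1 := one_add_mul_le_pow (a := -(1 / ((a : ℝ) + 1))) (by
    have h2 : 1 / ((a : ℝ) + 1) ≤ 1 := by
      rw [div_le_one h0]
      linarith
    linarith) 40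
  have h3 : 1 / ((a : ℝ) + 1) ≤ 1 / 80 := by
    apply one_div_le_one_div_of_le (by norm_num)
    linarith
  have h4 : (1 : ℝ) / 2 ≤ (1 + -(1 / ((a : ℝ) + 1))) ^ 40 := by
    refine le_trans ?_ h1
    push_cast
    linarith
  have h5 : 1 + -(1 / ((a : ℝ) + 1)) = a / (a + 1) := by
    field_simp
    ring
  rw [h5, div_pow, le_div_iff₀ (by positivity)] at h4
  have h6 : ((a : ℝ) + 1) ^ 40 ≤ 2 * (a : ℝ) ^ 40 := by linarith
  exact_mod_cast h6

theorem exists_root {N a0 : ℕ} (h80 : 80 ≤ a0) (h : a0 ^ 40 ≤ N) :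
    ∃ a, a0 ≤ a ∧ a ^ 40 ≤ N ∧ N ≤ 2 * a ^ 40 := by
  have hN : a0 ≤ N := le_trans (Nat.le_self_pow (by norm_num) a0) h
  set a := Nat.findGreatest (fun a => a ^ 40 ≤ N) N with ha
  have h1 : a ^ 40 ≤ N := Nat.findGreatest_spec (P := fun a => a ^ 40 ≤ N) hN h
  have h2 : a0 ≤ a := Nat.le_findGreatest hN h
  refine ⟨a, h2, h1, ?_⟩
  by_contra hcon
  push Not at hcon
  have h3 := pow_succ_le_two (h80.trans h2)
  have h4 : (a + 1) ^ 40 ≤ N := by omega
  have h5 : a + 1 ≤ N := le_trans (Nat.le_self_pow (by norm_num) _) h4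
  have h6 : a + 1 ≤ a := Nat.le_findGreatest h5 h4
  omega

variable {L : Type} [Lattice L] [BoundedOrder L] [Finite L] [IsUpperModularLattice L]
variable [DecidableEq L] [DecidableRel (α := L) (· ≤ ·)]

/-- A largest plane. -/
theorem exists_largest_plane {A : Finset L} (hr : rk (A.sup id) = 4) (hA : ∀ a ∈ A, IsAtom a) :
    ∃ Q, rk Q = 3 ∧ ∀ H, rk H = 3 → (A.filter (· ≤ H)).card ≤ (A.filter (· ≤ Q)).card := by
  classical
  have : Fintype L := Fintype.ofFinite L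
  have hne : ((univ : Finset L).filter (fun H => rk H = 3)).Nonempty := by
    obtain ⟨b, hb, hbr, -⟩ := Pool.Agent.Helper63.CR.exists_basis_with hA hr (fun _ => False)
      (by tauto)
    have h1 := Pool.Agent.Helper28.SL.frame_span (b := b) (fun i => hA _ (hb i)) hbr {0, 1, 2}
    have h2 : ({0, 1, 2} : Finset (Fin 4)).card = 3 := by decide
    rw [h2] at h1
    exact ⟨_, mem_filter.mpr ⟨mem_univ _, h1⟩⟩
  obtain ⟨Q, hQ, hQm⟩ := exists_max_image _ (fun H => (A.filter (· ≤ H)).card) hne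
  exact ⟨Q, (mem_filter.mp hQ).2, fun H hH => hQm H (mem_filter.mpr ⟨mem_univ _, hH⟩)⟩

/-- **Final deduction.** -/
theorem crit4_large {a0 c : ℕ} (h112 : 112 ≤ a0) (hc : c ≤ 112)
    (D : ∀ {A : Finset L}, (∀ a ∈ A, IsAtom a) → rk (A.sup id) = 4 → ∀ {Q : L}, rk Q = 3 →
      (∀ H, rk H = 3 → (A.filter (· ≤ H)).card ≤ (A.filter (· ≤ Q)).card) →
      ∀ {a : ℕ}, a0 ≤ a → a ^ 40 ≤ (A.filter (· ≤ Q)).card →
      (A.filter (· ≤ Q)).card ≤ 2 * a ^ 40 →
      (∀ g, rk g = 2 → (A.filter (· ≤ g)).card ≤ a ^ 31) → Crit4 A)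
    (V : ∀ {A : Finset L}, (∀ a ∈ A, IsAtom a) → rk (A.sup id) = 4 → ∀ {u : L}, rk u = 2 →
      c * A.card ≤ (A.filter (· ≤ u)).card ^ 2 → Crit4 A)
    {A : Finset L} (hA : ∀ a ∈ A, IsAtom a) (hr : rk (A.sup id) = 4)
    (hn : 3 * a0 ^ 60 ≤ A.card) : Crit4 A := by
  classical
  obtain ⟨Q, hQ, hQm⟩ := exists_largest_plane hr hA
  set N := (A.filter (· ≤ Q)).card with hN
  have ha00 : 0 < a0 := by omega
  by_cases hsmall : 1000 * N ≤ A.card ∧ 8 * N ^ 3 ≤ A.card ^ 2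
  · exact Pool.Agent.Helper63.CR.crit4_planes hA hr hQm hsmall.1 hsmall.2
  -- the largest plane is large
  have hNa : a0 ^ 40 ≤ N := by
    by_contra hcon
    push Not at hcon
    apply hsmall
    constructor
    · have h1 : 1000 ≤ a0 ^ 20 := by
        calc 1000 ≤ 112 ^ 20 := by norm_num
          _ ≤ a0 ^ 20 := Nat.pow_le_pow_left h112 20
      calc 1000 * N ≤ a0 ^ 20 * a0 ^ 40 := Nat.mul_le_mul h1 hcon.le
        _ = a0 ^ 60 := by ring
        _ ≤ 3 * a0 ^ 60 := Nat.le_mul_of_pos_left _ (by norm_num)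
        _ ≤ A.card := hn
    · calc 8 * N ^ 3 ≤ 8 * (a0 ^ 40) ^ 3 := Nat.mul_le_mul_left _ (Nat.pow_le_pow_left hcon.le 3)
        _ ≤ (3 * a0 ^ 60) ^ 2 := by
          have : (3 * a0 ^ 60) ^ 2 = 9 * (a0 ^ 40) ^ 3 := by ring
          rw [this]
          exact Nat.mul_le_mul_right _ (by norm_num)
        _ ≤ A.card ^ 2 := Nat.pow_le_pow_left hn 2
  have hlow : A.card ^ 2 < 8 * N ^ 3 := by
    by_contra hcon
    push Not at hcon
    apply hsmall
    refine ⟨?_, hcon⟩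
    by_contra h1
    push Not at h1
    have hN5 : 125000 ≤ N := by
      calc 125000 ≤ 112 ^ 40 := by norm_num
        _ ≤ a0 ^ 40 := Nat.pow_le_pow_left h112 40
        _ ≤ N := hNa
    have h2 : A.card ^ 2 < (1000 * N) ^ 2 := Nat.pow_lt_pow_left h1 (by norm_num)
    have h3 : (1000 * N) ^ 2 ≤ 8 * N ^ 3 := by
      have : 8 * N ^ 3 = (8 * N) * N ^ 2 := by ring
      rw [this, mul_pow]
      exact Nat.mul_le_mul_right _ (by omega)
    omega
  obtain ⟨a, h1, h2, h3⟩ := exists_root (by omega) hNa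
  have hapos : 0 < a := by omega
  have hn8 : A.card < 8 * a ^ 60 := by
    have h4 : A.card ^ 2 < (8 * a ^ 60) ^ 2 := by
      calc A.card ^ 2 < 8 * N ^ 3 := hlow
        _ ≤ 8 * (2 * a ^ 40) ^ 3 := Nat.mul_le_mul_left _ (Nat.pow_le_pow_left h3 3)
        _ = (8 * a ^ 60) ^ 2 := by ring
    exact lt_of_pow_lt_pow_left₀ 2 (Nat.zero_le _) h4
  by_cases hline : ∀ g, rk g = 2 → (A.filter (· ≤ g)).card ≤ a ^ 31
  · exact D hA hr hQ hQm h1 h2 h3 hline
  · push Not at hline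
    obtain ⟨u, hu, hus⟩ := hline
    refine V hA hr hu ?_
    calc c * A.card ≤ 112 * (8 * a ^ 60) := Nat.mul_le_mul hc hn8.le
      _ ≤ a ^ 2 * a ^ 60 := by
        rw [← mul_assoc]
        apply Nat.mul_le_mul_right
        nlinarith
      _ = (a ^ 31) ^ 2 := by ring
      _ ≤ (A.filter (· ≤ u)).card ^ 2 := Nat.pow_le_pow_left hus.le 2

end Pool.Agent.Helper88.RC
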