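import Mathlib

/-! Hall's condition by counting pairs (Cauchy): sets `G z`, two sets of one group disjoint,
two sets of different groups with at most one common element. -/

namespace Pool.Agent.Helper88.RC

open Finset

variable {Z P J : Type*} [DecidableEq Z] [DecidableEq P] [DecidableEq J]

/-- ordered pairs of `S` in different groups -/
def crossPairs (jj : Z → J) (S : Finset Z) : ℕ :=
  ((S ×ˢ S).filter (fun p => jj p.1 ≠ jj p.2)).card

omit [DecidableEq Z] in
lemma sum_card_inter (G : Z → Finset P) (S : Finset Z) :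
    ∑ h ∈ S.biUnion G, ((S.filter (fun z => h ∈ G z)).card) ^ 2
      = ∑ z ∈ S, ∑ z' ∈ S, (G z ∩ G z').card := by
  classical
  have h1 : ∀ h, ((S.filter (fun z => h ∈ G z)).card) ^ 2
      = ∑ z ∈ S, ∑ z' ∈ S, (if h ∈ G z ∧ h ∈ G z' then 1 else 0) := by
    intro h
    rw [sq, ← Finset.card_product, ← Finset.sum_product', ← Finset.card_filter]
    congr 1
    ext p
    simp only [mem_product, mem_filter]
    tauto
  simp only [h1]
  rw [Finset.sum_comm]
  refine Finset.sum_congr rfl fun z hz => ?_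
  rw [Finset.sum_comm]
  refine Finset.sum_congr rfl fun z' hz' => ?_
  rw [← Finset.card_filter]
  congr 1
  ext h
  simp only [mem_filter, mem_biUnion, mem_inter]
  constructor
  · rintro ⟨_, h2⟩; exact h2
  · intro h2; exact ⟨⟨z, hz, h2.1⟩, h2⟩

omit [DecidableEq Z] in
lemma sum_card_mem (G : Z → Finset P) (S : Finset Z) :
    ∑ h ∈ S.biUnion G, (S.filter (fun z => h ∈ G z)).card = ∑ z ∈ S, (G z).card := by
  classical
  have h1 : ∀ h, (S.filter (fun z => h ∈ G z)).card = ∑ z ∈ S, (if h ∈ G z then 1 else 0) := by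
    intro h; rw [← Finset.card_filter]
  simp only [h1]
  rw [Finset.sum_comm]
  refine Finset.sum_congr rfl fun z hz => ?_
  rw [← Finset.card_filter]
  congr 1
  ext h
  simp only [mem_filter, mem_biUnion]
  constructor
  · rintro ⟨_, h2⟩; exact h2
  · intro h2; exact ⟨⟨z, hz, h2⟩, h2⟩

/-- Cauchy: `E ^ 2 ≤ |N(S)| (E + cross pairs)`. -/
theorem sq_le_card_mul (G : Z → Finset P) (jj : Z → J) (S : Finset Z)
    (h0 : ∀ z ∈ S, ∀ z' ∈ S, z ≠ z' → jj z = jj z' → Disjoint (G z) (G z'))
    (h1 : ∀ z ∈ S, ∀ z' ∈ S, jj z ≠ jj z' → (G z ∩ G z').card ≤ 1) :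
    (∑ z ∈ S, (G z).card) ^ 2
      ≤ (S.biUnion G).card * (∑ z ∈ S, (G z).card + crossPairs jj S) := by
  classical
  have hc : (∑ h ∈ S.biUnion G, (S.filter (fun z => h ∈ G z)).card) ^ 2
      ≤ (S.biUnion G).card * ∑ h ∈ S.biUnion G, ((S.filter (fun z => h ∈ G z)).card) ^ 2 :=
    sq_sum_le_card_mul_sum_sq
  rw [sum_card_mem, sum_card_inter] at hc
  refine hc.trans (Nat.mul_le_mul_left _ ?_)
  have hle : ∀ z ∈ S, ∀ z' ∈ S, (G z ∩ G z').card
      ≤ (if z = z' then (G z).card else 0) + (if jj z ≠ jj z' then 1 else 0) := by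
    intro z hz z' hz'
    by_cases he : z = z'
    · subst he
      simp
    · by_cases hj : jj z = jj z'
      · have := h0 z hz z' hz' he hj
        rw [Finset.disjoint_iff_inter_eq_empty] at this
        simp [this]
      · simpa [he, hj] using h1 z hz z' hz' hj
  calc ∑ z ∈ S, ∑ z' ∈ S, (G z ∩ G z').card
      ≤ ∑ z ∈ S, ∑ z' ∈ S, ((if z = z' then (G z).card else 0)
          + (if jj z ≠ jj z' then 1 else 0)) :=
        Finset.sum_le_sum fun z hz => Finset.sum_le_sum fun z' hz' => hle z hz z' hz'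
    _ = ∑ z ∈ S, (G z).card + crossPairs jj S := by
        simp only [Finset.sum_add_distrib]
        congr 1
        · refine Finset.sum_congr rfl fun z hz => ?_
          rw [Finset.sum_ite_eq]
          simp [hz]
        · rw [crossPairs, Finset.card_filter, ← Finset.sum_product']

/-- Hall by pair count: if `x (E + cross) ≤ E ^ 2` for every nonempty `S` then there is a system of
distinct representatives. -/
theorem pair_hall (G : Z → Finset P) (jj : Z → J) (T : Finset Z)
    (h0 : ∀ z ∈ T, ∀ z' ∈ T, z ≠ z' → jj z = jj z' → Disjoint (G z) (G z'))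
    (h1 : ∀ z ∈ T, ∀ z' ∈ T, jj z ≠ jj z' → (G z ∩ G z').card ≤ 1)
    (h2 : ∀ S ⊆ T, S.Nonempty →
      S.card * (∑ z ∈ S, (G z).card + crossPairs jj S) ≤ (∑ z ∈ S, (G z).card) ^ 2
        ∧ 0 < ∑ z ∈ S, (G z).card) :
    ∃ f : T → P, Function.Injective f ∧ ∀ z, f z ∈ G z.1 := by
  classical
  have hall : ∀ s : Finset T, s.card ≤ (s.biUnion fun z => G z.1).card := by
    intro s
    rcases s.eq_empty_or_nonempty with rfl | hs
    · simp
    set S : Finset Z := s.map (Function.Embedding.subtype _) with hS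
    have hST : S ⊆ T := by
      intro z hz
      simp only [hS, mem_map, Function.Embedding.coe_subtype] at hz
      obtain ⟨a, _, rfl⟩ := hz
      exact a.2
    have hSne : S.Nonempty := by simpa [hS] using hs
    obtain ⟨h3, h4⟩ := h2 S hST hSne
    have h5 := sq_le_card_mul G jj S (fun z hz z' hz' => h0 z (hST hz) z' (hST hz'))
      (fun z hz z' hz' => h1 z (hST hz) z' (hST hz'))
    have h6 := h3.trans h5
    have hpos : 0 < ∑ z ∈ S, (G z).card + crossPairs jj S := by omega
    have h7 : S.card ≤ (S.biUnion G).card := Nat.le_of_mul_le_mul_right h6 hpos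
    have h8 : S.card = s.card := by simp [hS]
    have h9 : S.biUnion G = s.biUnion fun z => G z.1 := by
      ext h
      simp [hS]
    rw [← h8, ← h9]
    exact h7
  exact (Finset.all_card_le_biUnion_card_iff_exists_injective _).1 hall

omit [DecidableEq Z] in
/-- number of cross pairs `≤ x * c` if every `z` has at most `c` elements of `T` in other groups -/
lemma crossPairs_le (jj : Z → J) (S : Finset Z) (c : ℕ)
    (hc : ∀ z ∈ S, (S.filter (fun z' => jj z' ≠ jj z)).card ≤ c) :
    crossPairs jj S ≤ S.card * c := by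
  classical
  rw [crossPairs, Finset.card_filter,
    Finset.sum_product' (f := fun z z' => if jj z ≠ jj z' then 1 else 0)]
  calc ∑ z ∈ S, ∑ z' ∈ S, (if jj z ≠ jj z' then 1 else 0)
      = ∑ z ∈ S, (S.filter (fun z' => jj z' ≠ jj z)).card := by
        refine Finset.sum_congr rfl fun z _ => ?_
        rw [← Finset.card_filter]
        congr 1
        ext z'
        simp [ne_comm]
    _ ≤ ∑ _z ∈ S, c := Finset.sum_le_sum hc
    _ = S.card * c := by simp

/-- the uniform form: every `G z` has at least `d` elements, at most `c` elements of `T` are in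
other groups than `z`, and `c ≤ d (d - 1)`. -/
theorem pair_hall_unif (G : Z → Finset P) (jj : Z → J) (T : Finset Z) (d c : ℕ)
    (h0 : ∀ z ∈ T, ∀ z' ∈ T, z ≠ z' → jj z = jj z' → Disjoint (G z) (G z'))
    (h1 : ∀ z ∈ T, ∀ z' ∈ T, jj z ≠ jj z' → (G z ∩ G z').card ≤ 1)
    (hd0 : 1 ≤ d) (hd : ∀ z ∈ T, d ≤ (G z).card)
    (hc : ∀ z ∈ T, (T.filter (fun z' => jj z' ≠ jj z)).card ≤ c) (hcd : c ≤ d * (d - 1)) :
    ∃ f : T → P, Function.Injective f ∧ ∀ z, f z ∈ G z.1 := by
  classical
  refine pair_hall G jj T h0 h1 fun S hS hSne => ?_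
  have hE : S.card * d ≤ ∑ z ∈ S, (G z).card := by
    calc S.card * d = ∑ _z ∈ S, d := by simp
      _ ≤ _ := Finset.sum_le_sum fun z hz => hd z (hS hz)
  have hpos : 0 < S.card := hSne.card_pos
  have hcr : crossPairs jj S ≤ S.card * (d * (d - 1)) := by
    refine (crossPairs_le jj S c fun z hz => ?_).trans (Nat.mul_le_mul_left _ hcd)
    exact (Finset.card_le_card (Finset.filter_subset_filter _ hS)).trans (hc z (hS hz))
  set E := ∑ z ∈ S, (G z).card
  set x := S.card
  constructor
  · obtain ⟨k, hk⟩ : ∃ k, E = x * d + k := ⟨E - x * d, by omega⟩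
    obtain ⟨e, he⟩ : ∃ e, d = e + 1 := ⟨d - 1, by omega⟩
    have h3 : crossPairs jj S ≤ x * ((e + 1) * e) := by
      simpa [he] using hcr
    have h4 : x * (E + crossPairs jj S) ≤ x * (E + x * ((e + 1) * e)) :=
      Nat.mul_le_mul_left _ (Nat.add_le_add_left h3 _)
    refine h4.trans ?_
    rw [hk, he]
    have hk0 : x * k ≤ x * (e + 1) * k := by
      have : x * k * 1 ≤ x * k * (e + 1) := Nat.mul_le_mul_left _ (by omega)
      nlinarith
    nlinarith [Nat.zero_le (x * (e + 1) * k), Nat.zero_le (k * k)]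
  · have : 0 < x * d := Nat.mul_pos hpos hd0
    omega

end Pool.Agent.Helper88.RC
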